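import Pool.Agent.H902R2.HO.Stubs
import Pool.Agent.H758R2.HO.Com

/-!
ROOM HO (helper966), task HOM: coordinates in an oriented orthonormal frame.
-/

open scoped RealInnerProductSpace

noncomputable section

namespace H966HO

open H902HO H758H Pool.Agent.H821R3 H907H

/-! ### frames in `T ℝ` -/

section frame

variable {x1 x2 x3 : T ℝ} (h : IsFrame x1 x2 x3)

include h

theorem fr3 : x3.x = x1.y * x2.z - x1.z * x2.y ∧ x3.y = x1.z * x2.x - x1.x * x2.z ∧
    x3.z = x1.x * x2.y - x1.y * x2.x := by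
  have h1 := h.cr
  exact ⟨(congrArg T.x h1).symm, (congrArg T.y h1).symm, (congrArg T.z h1).symm⟩

theorem fr_d13 : T.dot x1 x3 = 0 := by
  obtain ⟨a, b, c⟩ := fr3 h
  simp only [T.dot, a, b, c]; ring

theorem fr_d23 : T.dot x2 x3 = 0 := by
  obtain ⟨a, b, c⟩ := fr3 h
  simp only [T.dot, a, b, c]; ring

theorem fr_d33 : T.dot x3 x3 = 1 := by
  obtain ⟨a, b, c⟩ := fr3 h
  have h1 := h.d11
  have h2 := h.d22
  have h3 := h.d12
  simp only [T.dot] at h1 h2 h3 ⊢
  rw [a, b, c]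
  linear_combination (x2.x * x2.x + x2.y * x2.y + x2.z * x2.z) * h1 + h2 -
    (x1.x * x2.x + x1.y * x2.y + x1.z * x2.z) * h3

/-- the columns are orthonormal -/
theorem fr_col : x1.x * x1.x + x2.x * x2.x + x3.x * x3.x = 1 ∧
    x1.y * x1.y + x2.y * x2.y + x3.y * x3.y = 1 ∧
    x1.z * x1.z + x2.z * x2.z + x3.z * x3.z = 1 ∧
    x1.x * x1.y + x2.x * x2.y + x3.x * x3.y = 0 ∧
    x1.x * x1.z + x2.x * x2.z + x3.x * x3.z = 0 ∧
    x1.y * x1.z + x2.y * x2.z + x3.y * x3.z = 0 := by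
  have h11 := h.d11
  have h22 := h.d22
  have h12 := h.d12
  have h13 := fr_d13 h
  have h23 := fr_d23 h
  have h33 := fr_d33 h
  simp only [T.dot] at h11 h22 h12 h13 h23 h33
  let M : Matrix (Fin 3) (Fin 3) ℝ := !![x1.x, x1.y, x1.z; x2.x, x2.y, x2.z; x3.x, x3.y, x3.z]
  have hM : M * M.transpose = 1 := by
    ext i j
    fin_cases i <;> fin_cases j <;>
      simp [M, Matrix.mul_apply, Fin.sum_univ_three, Matrix.transpose_apply] <;> linarith
  have hM2 : M.transpose * M = 1 := mul_eq_one_comm.1 hM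
  have key : ∀ i j, (M.transpose * M) i j = (1 : Matrix (Fin 3) (Fin 3) ℝ) i j := by
    intro i j; rw [hM2]
  have k00 := key 0 0
  have k11 := key 1 1
  have k22 := key 2 2
  have k01 := key 0 1
  have k02 := key 0 2
  have k12 := key 1 2
  simp [M, Matrix.mul_apply, Fin.sum_univ_three, Matrix.transpose_apply] at k00 k11 k22 k01 k02 k12
  exact ⟨by linarith, by linarith, by linarith, by linarith, by linarith, by linarith⟩

/-- expansion of a vector in the frame -/
theorem fr_exp (a : T ℝ) :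
    a.x = T.dot x1 a * x1.x + T.dot x2 a * x2.x + T.dot x3 a * x3.x ∧
    a.y = T.dot x1 a * x1.y + T.dot x2 a * x2.y + T.dot x3 a * x3.y ∧
    a.z = T.dot x1 a * x1.z + T.dot x2 a * x2.z + T.dot x3 a * x3.z := by
  obtain ⟨h1, h2, h3, h4, h5, h6⟩ := fr_col h
  simp only [T.dot]
  refine ⟨?_, ?_, ?_⟩
  · linear_combination -a.x * h1 - a.y * h4 - a.z * h5
  · linear_combination -a.x * h4 - a.y * h2 - a.z * h6
  · linear_combination -a.x * h5 - a.y * h6 - a.z * h3

theorem fr_cr23 : T.cr x2 x3 = x1 := by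
  obtain ⟨a, b, c⟩ := fr3 h
  have h22 := h.d22
  have h12 := h.d12
  simp only [T.dot] at h22 h12
  ext
  · simp only [T.cr]; rw [b, c]; linear_combination x1.x * h22 - x2.x * h12
  · simp only [T.cr]; rw [a, c]; linear_combination x1.y * h22 - x2.y * h12
  · simp only [T.cr]; rw [a, b]; linear_combination x1.z * h22 - x2.z * h12

theorem fr_cr31 : T.cr x3 x1 = x2 := by
  obtain ⟨a, b, c⟩ := fr3 h
  have h11 := h.d11
  have h12 := h.d12
  simp only [T.dot] at h11 h12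
  ext
  · simp only [T.cr]; rw [b, c]; linear_combination x2.x * h11 - x1.x * h12
  · simp only [T.cr]; rw [a, c]; linear_combination x2.y * h11 - x1.y * h12
  · simp only [T.cr]; rw [a, b]; linear_combination x2.z * h11 - x1.z * h12

/-- the scalar product in the coordinates of a frame -/
theorem fr_dot (a b : T ℝ) : T.dot (frV a x1 x2 x3) (frV b x1 x2 x3) = T.dot a b := by
  obtain ⟨ha, hb, hc⟩ := fr_exp h b
  simp only [frV]
  have e : T.dot a b = a.x * b.x + a.y * b.y + a.z * b.z := rfl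
  rw [e, ha, hb, hc]
  simp only [T.dot]
  ring

/-- the cross product in the coordinates of a frame -/
theorem fr_cr (a b : T ℝ) :
    T.cr (frV a x1 x2 x3) (frV b x1 x2 x3) = frV (T.cr a b) x1 x2 x3 := by
  have h3 := h.cr
  have h1 := fr_cr23 h
  have h2 := fr_cr31 h
  have bc : ∀ p q : T ℝ, T.dot p a * T.dot q b - T.dot q a * T.dot p b =
      T.dot (T.cr p q) (T.cr a b) := by
    intro p q
    simp only [T.dot, T.cr]; ring
  ext
  · change T.dot x2 a * T.dot x3 b - T.dot x3 a * T.dot x2 b = T.dot x1 (T.cr a b)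
    rw [bc, h1]
  · change T.dot x3 a * T.dot x1 b - T.dot x1 a * T.dot x3 b = T.dot x2 (T.cr a b)
    rw [bc, h2]
  · change T.dot x1 a * T.dot x2 b - T.dot x2 a * T.dot x1 b = T.dot x3 (T.cr a b)
    rw [bc, h3]

omit h in
theorem dot_ap_symm (w : Sym ℝ) (a b : T ℝ) : T.dot a (w.ap b) = T.dot b (w.ap a) := by
  simp only [T.dot, Sym.ap]; ring

/-- a symmetric matrix in the coordinates of a frame -/
theorem fr_ap (w : Sym ℝ) (a : T ℝ) :
    (frS w x1 x2 x3).ap (frV a x1 x2 x3) = frV (w.ap a) x1 x2 x3 := by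
  obtain ⟨ha, hb, hc⟩ := fr_exp h a
  have key : ∀ u : T ℝ, T.dot u (w.ap a) = T.dot u (w.ap x1) * T.dot x1 a +
      T.dot u (w.ap x2) * T.dot x2 a + T.dot u (w.ap x3) * T.dot x3 a := by
    intro u
    have e : T.dot u (w.ap a) = (w.ap u).x * a.x + (w.ap u).y * a.y + (w.ap u).z * a.z := by
      simp only [T.dot, Sym.ap]; ring
    rw [e, ha, hb, hc]
    have e2 : ∀ p : T ℝ, T.dot u (w.ap p) =
        (w.ap u).x * p.x + (w.ap u).y * p.y + (w.ap u).z * p.z := by
      intro p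
      simp only [T.dot, Sym.ap]; ring
    rw [e2 x1, e2 x2, e2 x3]
    ring
  ext
  · change T.dot x1 (w.ap x1) * T.dot x1 a + T.dot x1 (w.ap x2) * T.dot x2 a +
      T.dot x1 (w.ap x3) * T.dot x3 a = T.dot x1 (w.ap a)
    rw [key x1]
  · change T.dot x1 (w.ap x2) * T.dot x1 a + T.dot x2 (w.ap x2) * T.dot x2 a +
      T.dot x2 (w.ap x3) * T.dot x3 a = T.dot x2 (w.ap a)
    rw [key x2, dot_ap_symm w x2 x1]
  · change T.dot x1 (w.ap x3) * T.dot x1 a + T.dot x2 (w.ap x3) * T.dot x2 a +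
      T.dot x3 (w.ap x3) * T.dot x3 a = T.dot x3 (w.ap a)
    rw [key x3, dot_ap_symm w x3 x1, dot_ap_symm w x3 x2]

/-- change of frame is a morphism of operations -/
theorem ohom_frame (w q : Sym ℝ) (v : T ℝ) :
    OHom (ops w q v) (ops (frS w x1 x2 x3) (frS q x1 x2 x3) (frV v x1 x2 x3)) (id : ℝ → ℝ)
      (fun a => frV a x1 x2 x3) where
  add _ _ := rfl
  sub _ _ := rfl
  mul _ _ := rfl
  vadd a b := by ext <;> simp [frV, T.dot] <;> ring
  vneg a := by ext <;> simp [frV, T.dot] <;> ring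
  smul r a := by ext <;> simp [frV, T.dot] <;> ring
  dot a b := (fr_dot h a b).symm
  cr a b := (fr_cr h a b).symm
  W a := (fr_ap h w a).symm
  Q a := (fr_ap h q a).symm
  v := rfl

end frame

/-! ### standard coordinates of `V3` -/

/-- coordinates -/
def tv (u : V3) : T ℝ := ⟨u 0, u 1, u 2⟩

/-- the vector with given coordinates -/
def vt (u : T ℝ) : V3 := !₂[u.x, u.y, u.z]

@[simp] theorem tv_vt (u : T ℝ) : tv (vt u) = u := by
  ext <;> simp [tv, vt]

@[simp] theorem vt_tv (u : V3) : vt (tv u) = u := ext3 rfl rfl rfl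

theorem tv_inj {u u' : V3} (e : tv u = tv u') : u = u' := by
  rw [← vt_tv u, e, vt_tv]

theorem tv_dot (a b : V3) : ⟪a, b⟫ = T.dot (tv a) (tv b) := by
  rw [inner3]; rfl

theorem tv_cr (a b : V3) : tv (cr a b) = T.cr (tv a) (tv b) := rfl

theorem tv_add (a b : V3) : tv (a + b) = tv a + tv b := by
  ext <;> simp [tv]

theorem tv_neg (a : V3) : tv (-a) = -tv a := by
  ext <;> simp [tv]

theorem tv_smul (r : ℝ) (a : V3) : tv (r • a) = r • tv a := by
  ext <;> simp [tv]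

/-- the operations on `V3` with given `W`, `Q`, `v` -/
def OV (Wf Qf : V3 → V3) (v : V3) : Ops ℝ V3 where
  dot a b := ⟪a, b⟫
  cr := cr
  W := Wf
  Q := Qf
  v := v

/-- standard coordinates are a morphism of operations -/
theorem ohom_std {Wf Qf : V3 → V3} {w q : Sym ℝ} {v : V3} (hW : ∀ u, tv (Wf u) = w.ap (tv u))
    (hQ : ∀ u, tv (Qf u) = q.ap (tv u)) :
    OHom (OV Wf Qf v) (ops w q (tv v)) (id : ℝ → ℝ) tv where
  add _ _ := rfl
  sub _ _ := rfl
  mul _ _ := rfl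
  vadd := tv_add
  vneg := tv_neg
  smul := tv_smul
  dot := tv_dot
  cr := tv_cr
  W := hW
  Q := hQ
  v := rfl

/-- coordinates in the frame `x1, x2, x3` of `V3` -/
def Phi (x1 x2 x3 u : V3) : T ℝ := ⟨⟪x1, u⟫, ⟪x2, u⟫, ⟪x3, u⟫⟩

theorem Phi_eq (x1 x2 x3 u : V3) : Phi x1 x2 x3 u = frV (tv u) (tv x1) (tv x2) (tv x3) := by
  simp only [Phi, frV, tv_dot]

/-- TASK HOM: coordinates in an oriented orthonormal frame are a morphism of operations. -/
theorem HOM {Wf Qf : V3 → V3} {w q : Sym ℝ} {v : V3} (hW : ∀ u, tv (Wf u) = w.ap (tv u))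
    (hQ : ∀ u, tv (Qf u) = q.ap (tv u)) {x1 x2 x3 : V3}
    (hf : IsFrame (tv x1) (tv x2) (tv x3)) :
    OHom (OV Wf Qf v) (ops (frS w (tv x1) (tv x2) (tv x3)) (frS q (tv x1) (tv x2) (tv x3))
      (frV (tv v) (tv x1) (tv x2) (tv x3))) (id : ℝ → ℝ) (Phi x1 x2 x3) := by
  have e : Phi x1 x2 x3 = fun u => frV (tv u) (tv x1) (tv x2) (tv x3) := by
    funext u; exact Phi_eq x1 x2 x3 u
  rw [e]
  have h1 := ohom_std (v := v) hW hQ
  have h2 := ohom_frame hf w q (tv v)
  exact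
    { add := fun _ _ => rfl
      sub := fun _ _ => rfl
      mul := fun _ _ => rfl
      vadd := fun a b => by
        change frV (tv (a + b)) _ _ _ = _
        rw [h1.vadd]; exact h2.vadd _ _
      vneg := fun a => by
        change frV (tv (-a)) _ _ _ = _
        rw [h1.vneg]; exact h2.vneg _
      smul := fun r a => by
        change frV (tv (r • a)) _ _ _ = _
        rw [h1.smul]; exact h2.smul _ _
      dot := fun a b => by rw [h1.dot]; exact h2.dot _ _
      cr := fun a b => by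
        change frV (tv ((OV Wf Qf v).cr a b)) _ _ _ = _
        rw [h1.cr]; exact h2.cr _ _
      W := fun a => by
        change frV (tv ((OV Wf Qf v).W a)) _ _ _ = _
        rw [h1.W]; exact h2.W _
      Q := fun a => by
        change frV (tv ((OV Wf Qf v).Q a)) _ _ _ = _
        rw [h1.Q]; exact h2.Q _
      v := rfl }

/-- a frame of `V3` -/
theorem isFrame_tv {x1 x2 x3 : V3} (h1 : ‖x1‖ = 1) (h2 : ‖x2‖ = 1) (h12 : ⟪x1, x2⟫ = 0)
    (h3 : cr x1 x2 = x3) : IsFrame (tv x1) (tv x2) (tv x3) where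
  d11 := by rw [← tv_dot, real_inner_self_eq_norm_sq, h1, one_pow]
  d22 := by rw [← tv_dot, real_inner_self_eq_norm_sq, h2, one_pow]
  d12 := by rw [← tv_dot, h12]
  cr := by rw [← tv_cr, h3]

/-- the frame `x, l × x, l` for orthonormal `x, l` -/
theorem isFrame_cr {x l : V3} (hx : ‖x‖ = 1) (hl : ‖l‖ = 1) (hxl : ⟪x, l⟫ = 0) :
    IsFrame (tv x) (tv (cr l x)) (tv l) := by
  have e1 : ‖cr l x‖ = 1 := by
    have := norm_cr l x
    rw [hl, hx, real_inner_comm, hxl] at this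
    have h2 : ‖cr l x‖ ^ 2 = 1 := by rw [this]; norm_num
    have h0 := norm_nonneg (cr l x)
    nlinarith
  refine isFrame_tv hx e1 (inner_cr_self' l x) ?_
  have a1 : x 0 * x 0 + x 1 * x 1 + x 2 * x 2 = 1 := by
    rw [← inner3, real_inner_self_eq_norm_sq, hx, one_pow]
  have a2 : x 0 * l 0 + x 1 * l 1 + x 2 * l 2 = 0 := by rw [← inner3, hxl]
  refine ext3 ?_ ?_ ?_
  · simp only [cr0, cr1, cr2]
    linear_combination l 0 * a1 - x 0 * a2
  · simp only [cr0, cr1, cr2]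
    linear_combination l 1 * a1 - x 1 * a2
  · simp only [cr0, cr1, cr2]
    linear_combination l 2 * a1 - x 2 * a2

/-- the coordinates of a frame in a frame are a frame -/
theorem isFrame_frV {x1 x2 x3 y1 y2 y3 : T ℝ} (hx : IsFrame x1 x2 x3) (hy : IsFrame y1 y2 y3) :
    IsFrame (frV y1 x1 x2 x3) (frV y2 x1 x2 x3) (frV y3 x1 x2 x3) where
  d11 := by rw [fr_dot hx, hy.d11]
  d22 := by rw [fr_dot hx, hy.d22]
  d12 := by rw [fr_dot hx, hy.d12]
  cr := by rw [fr_cr hx, hy.cr]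

/-- the coordinates of the frame vectors -/
theorem frV_frame {x1 x2 x3 : T ℝ} (h : IsFrame x1 x2 x3) :
    frV x1 x1 x2 x3 = ⟨1, 0, 0⟩ ∧ frV x2 x1 x2 x3 = ⟨0, 1, 0⟩ ∧ frV x3 x1 x2 x3 = ⟨0, 0, 1⟩ := by
  have c : ∀ a b : T ℝ, T.dot a b = T.dot b a := by intro a b; simp only [T.dot]; ring
  refine ⟨?_, ?_, ?_⟩
  · simp only [frV, h.d11, c x2 x1, c x3 x1, h.d12, fr_d13 h]
  · simp only [frV, h.d22, c x3 x2, h.d12, fr_d23 h]
  · simp only [frV, fr_d13 h, fr_d23 h, fr_d33 h]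

end H966HO
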